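import Mathlib
import Pool.Agent.X88.Seq.C

/-!
# Hyperbolicity of compositions of rational maps with powers and Chebyshev polynomials
-/

set_option autoImplicit false

open Set Filter Topology Polynomial
open scoped OnePoint

namespace Pool.Agent.Results.MP_8f2e1c_an.ChebyshevFamilies

/-- `f` is the rational map `P / Q` of the Riemann sphere, with `P / Q` in lowest terms. -/
def IsRationalMap (P Q : ℂ[X]) (f : OnePoint ℂ → OnePoint ℂ) : Prop :=
  IsCoprime P Q ∧ Q ≠ 0 ∧ Continuous f ∧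
    ∀ z : ℂ, Q.eval z ≠ 0 → f (OnePoint.some z) = OnePoint.some (P.eval z / Q.eval z)

/-- `c` is a critical point of `f`: `f` is not injective on any neighbourhood of `c`. -/
def Critical (f : OnePoint ℂ → OnePoint ℂ) (c : OnePoint ℂ) : Prop :=
  ¬ ∃ U ∈ nhds c, Set.InjOn f U

/-- `P / Q` is in lowest terms and every critical point (point of the Riemann sphere where the map
is not locally injective) has an orbit converging to an attracting periodic cycle. This is word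
for word the condition of the frozen statement `S05373`. -/
def Hyperbolic (P Q : Polynomial ℂ) : Prop :=
  IsCoprime P Q ∧ ∃ f : OnePoint ℂ → OnePoint ℂ, Continuous f ∧
    (∀ z : ℂ, Q.eval z ≠ 0 →
      f (OnePoint.some z) = OnePoint.some (P.eval z / Q.eval z)) ∧
    ∀ c : OnePoint ℂ, (¬ ∃ U ∈ nhds c, Set.InjOn f U) →
      ∃ z : OnePoint ℂ, ∃ n : ℕ, 0 < n ∧ f^[n] z = z ∧
        (∃ U ∈ nhds z, ∀ w ∈ U,
          Filter.Tendsto (fun k : ℕ => f^[n * k] w) Filter.atTop (nhds z)) ∧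
        Filter.Tendsto (fun k : ℕ => f^[n * k] c) Filter.atTop (nhds z)

/-- The building blocks: the Chebyshev polynomial `T_n` (with `T_n (cos t) = cos (n t)`) if `κ` is
true, the power `X ^ n` if `κ` is false. -/
noncomputable def block (κ : Bool) (n : ℕ) : ℂ[X] := if κ then Chebyshev.T ℂ n else X ^ n

/-- The set `{1, -1, ∞}` for the Chebyshev polynomials, `{0, ∞}` for the powers. -/
def Ends (κ : Bool) : Set (OnePoint ℂ) :=
  if κ then {((1 : ℂ) : OnePoint ℂ), ((-1 : ℂ) : OnePoint ℂ), ∞} else {((0 : ℂ) : OnePoint ℂ), ∞}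

/-- The Julia set of the block: the segment `[-1, 1]` for the Chebyshev polynomials, the unit
circle for the powers. -/
def Core (κ : Bool) : Set (OnePoint ℂ) :=
  if κ then {x | ∃ t : ℝ, -1 ≤ t ∧ t ≤ 1 ∧ x = ((t : ℂ) : OnePoint ℂ)}
  else {x | ∃ z : ℂ, ‖z‖ = 1 ∧ x = (z : OnePoint ℂ)}

/-- `b_0 ∘ f_1 ∘ b_1 ∘ f_2 ∘ b_2 ∘ ⋯ ∘ f_j ∘ b_j`, where `b_i` is the block of type `κ i` and
degree `n i`, acting on the sphere with `∞ ↦ ∞`. -/
noncomputable def composite (f : ℕ → OnePoint ℂ → OnePoint ℂ) (κ : ℕ → Bool) (n : ℕ → ℕ) :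
    ℕ → OnePoint ℂ → OnePoint ℂ
  | 0 => OnePoint.map fun z : ℂ => (block (κ 0) (n 0)).eval z
  | j + 1 => composite f κ n j ∘ f (j + 1) ∘
      OnePoint.map fun z : ℂ => (block (κ (j + 1)) (n (j + 1))).eval z

open Pool.Agent.X88.HI Pool.Agent.Helper114.Herman Pool.Agent.Helper114.Konig
open Pool.Agent.X88.Seq

theorem toIsRat {P Q : ℂ[X]} {f : OnePoint ℂ → OnePoint ℂ} (h : IsRationalMap P Q f) :
    IsRat f P Q := ⟨h.2.2.1, h.1, h.2.1, h.2.2.2⟩

theorem ofIsRat {P Q : ℂ[X]} {f : OnePoint ℂ → OnePoint ℂ} (h : IsRat f P Q) :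
    IsRationalMap P Q f := ⟨h.cop, h.ne, h.cont, h.eval⟩

theorem composite_eq (f : ℕ → OnePoint ℂ → OnePoint ℂ) (κ : ℕ → Bool) (n : ℕ → ℕ) (j : ℕ) :
    composite f κ n j = cp f κ n j := by
  induction j with
  | zero => rfl
  | succ j ih =>
    rw [composite, ih, cp]
    rfl

theorem ends_eq (κ : Bool) : Ends κ = Lb κ := by
  cases κ <;> rfl

theorem mem_Ob {κ : Bool} {x : OnePoint ℂ} : x ∈ Ob κ ↔ x ∉ Core κ := by
  cases κ
  · show x ∈ Opow ↔ x ∉ {x | ∃ z : ℂ, ‖z‖ = 1 ∧ x = (z : OnePoint ℂ)}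
    constructor
    · rintro h ⟨z, hz, rfl⟩
      exact h z rfl hz
    · rintro h z rfl hz
      exact h ⟨z, hz, rfl⟩
  · show x ∈ Oche ↔ x ∉ {x | ∃ t : ℝ, -1 ≤ t ∧ t ≤ 1 ∧ x = ((t : ℂ) : OnePoint ℂ)}
    constructor
    · rintro h ⟨t, h1, h2, rfl⟩
      exact h t h1 h2 rfl
    · rintro h t h1 h2 rfl
      exact h ⟨t, h1, h2, rfl⟩

theorem map_eq' {F : OnePoint ℂ → OnePoint ℂ} {A B : ℂ[X]} (hF : IsRat F A B) (z : ℂ) :
    F (z : OnePoint ℂ) = pr (A.eval z) (B.eval z) := by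
  rcases Nat.eq_zero_or_pos (max A.natDegree B.natDegree) with h | h
  · have h1 : B.natDegree = 0 := by omega
    have h2 : B.eval z ≠ 0 := by
      have h3 := hF.ne
      rw [Polynomial.eq_C_of_natDegree_eq_zero h1] at h3 ⊢
      simpa using h3
    rw [hF.eval z h2, pr_ne h2]
  · exact map_eq hF h z

theorem hyperbolic_moeb {F m : OnePoint ℂ → OnePoint ℂ} {A B : ℂ[X]} (hF : IsRat F A B)
    {M : ℂ × ℂ × ℂ × ℂ} (hM : dt M ≠ 0) (hm : Continuous m)
    (hmf : ∀ u v : ℂ, (u ≠ 0 ∨ v ≠ 0) →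
      m (pr u v) = pr (M.1 * u + M.2.1 * v) (M.2.2.1 * u + M.2.2.2 * v))
    (hs : ∀ c, Crit (m ∘ F) c → Pool.Agent.H762R2.Rt.Sinks (m ∘ F) c) :
    Hyperbolic (C M.1 * A + C M.2.1 * B) (C M.2.2.1 * A + C M.2.2.2 * B) := by
  refine ⟨?_, m ∘ F, hm.comp hF.cont, ?_, hs⟩
  · rw [coprime_iff]
    intro z
    simpa using dt_ne hM (coprime_iff.1 hF.cop z)
  · intro z hz
    have h1 : F (z : OnePoint ℂ) = pr (A.eval z) (B.eval z) := map_eq' hF z
    show m (F (z : OnePoint ℂ)) = _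
    rw [h1, hmf _ _ (coprime_iff.1 hF.cop z)]
    have hz' : M.2.2.1 * A.eval z + M.2.2.2 * B.eval z ≠ 0 := by simpa using hz
    rw [pr_ne hz']
    simp

theorem degree_moeb {A B : ℂ[X]} (hAB : IsCoprime A B) {M : ℂ × ℂ × ℂ × ℂ} (hM : dt M ≠ 0) :
    max (C M.1 * A + C M.2.1 * B).natDegree (C M.2.2.1 * A + C M.2.2.2 * B).natDegree =
      max A.natDegree B.natDegree := by
  have hle : ∀ a b : ℂ, (C a * A + C b * B).natDegree ≤ max A.natDegree B.natDegree := by
    intro a b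
    refine (natDegree_add_le _ _).trans (max_le_max ?_ ?_)
    · exact natDegree_C_mul_le _ _
    · exact natDegree_C_mul_le _ _
  apply max_natDegree_eq (hle _ _) (hle _ _)
  simpa using dt_ne hM (coeff_max hAB)

/-- Let `f_0, …, f_k` be rational maps, `f_i = P_i / Q_i` in lowest terms of degree at least one,
and choose for each `i ≤ k` a type of block, power or Chebyshev. Suppose that for `1 ≤ i ≤ k` the
map `f_i` takes the ends of its block and its critical points off the core of the previous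
block (for `k = 0` there is no condition). Let `F_n` be the composition
`f_0 ∘ b_0 ∘ f_1 ∘ b_1 ∘ ⋯ ∘ f_k ∘ b_k`, where `b_i` is the block of degree `n i`.

(1) If all `n i ≥ 1` then `F_n` is a rational map of degree `∏ deg (f_i) n_i`.

(2) If `f_0` takes the ends of its block and its critical points off the core of the last block,
then `F_n` is hyperbolic whenever all `n i` are large.

(3) In general, for all matrices `M` in a residual set the composition of `F_n` with the Moebius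
transformation `M` is hyperbolic whenever all `n i` are large; and for every `ε > 0`, whenever all
`n i` are large and `F_n = A / B` in lowest terms, there is a hyperbolic map `P' / Q'` of the same
degree with `|P'_j - A_j|`, `|Q'_j - B_j|` at most `ε (|A_j| + |B_j|)` for all coefficients. -/
theorem result (k : ℕ) (P Q : ℕ → ℂ[X]) (f : ℕ → OnePoint ℂ → OnePoint ℂ) (κ : ℕ → Bool)
    (hf : ∀ i ≤ k, IsRationalMap (P i) (Q i) (f i))
    (hD : ∀ i ≤ k, 1 ≤ max (P i).natDegree (Q i).natDegree)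
    (hoff : ∀ i < k, ∀ x, (x ∈ Ends (κ (i + 1)) ∨ Critical (f (i + 1)) x) →
      f (i + 1) x ∉ Core (κ i)) :
    (∀ n : ℕ → ℕ, (∀ i ≤ k, 1 ≤ n i) → ∃ A B : ℂ[X],
      IsRationalMap A B (f 0 ∘ composite f κ n k) ∧ max A.natDegree B.natDegree =
        ∏ i ∈ Finset.range (k + 1), (max (P i).natDegree (Q i).natDegree * n i)) ∧
    ((∀ x, (x ∈ Ends (κ 0) ∨ Critical (f 0) x) → f 0 x ∉ Core (κ k)) →
      ∃ N : ℕ, ∀ n : ℕ → ℕ, (∀ i ≤ k, N ≤ n i) → ∀ A B : ℂ[X],
        IsRationalMap A B (f 0 ∘ composite f κ n k) → Hyperbolic A B) ∧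
    (∀ᶠ M in residual (ℂ × ℂ × ℂ × ℂ), M.1 * M.2.2.2 - M.2.1 * M.2.2.1 ≠ 0 ∧
      ∃ N : ℕ, ∀ n : ℕ → ℕ, (∀ i ≤ k, N ≤ n i) → ∀ A B : ℂ[X],
        IsRationalMap A B (f 0 ∘ composite f κ n k) →
          Hyperbolic (C M.1 * A + C M.2.1 * B) (C M.2.2.1 * A + C M.2.2.2 * B)) ∧
    ∀ ε : ℝ, 0 < ε → ∃ N : ℕ, ∀ n : ℕ → ℕ, (∀ i ≤ k, N ≤ n i) → ∀ A B : ℂ[X],
      IsRationalMap A B (f 0 ∘ composite f κ n k) →
        ∃ P' Q' : ℂ[X], max P'.natDegree Q'.natDegree = max A.natDegree B.natDegree ∧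
          (∀ j : ℕ, ‖P'.coeff j - A.coeff j‖ ≤ ε * (‖A.coeff j‖ + ‖B.coeff j‖) ∧
            ‖Q'.coeff j - B.coeff j‖ ≤ ε * (‖A.coeff j‖ + ‖B.coeff j‖)) ∧
          Hyperbolic P' Q' := by
  have hch : ∀ i ≤ k, Continuous (f i) ∧ Hol (f i) := fun i hi =>
    ⟨(hf i hi).2.2.1, hol_rat (toIsRat (hf i hi)) (hD i hi)⟩
  have hoff' : ∀ i < k, ∀ x, (x ∈ Lb (κ (i + 1)) ∨ Crit (f (i + 1)) x) →
      f (i + 1) x ∈ Ob (κ i) := by
    intro i hi x hx
    rw [mem_Ob]
    apply hoff i hi x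
    rwa [ends_eq]
  have hres : ∀ᶠ M in residual (ℂ × ℂ × ℂ × ℂ), dt M ≠ 0 ∧
      ∃ N : ℕ, ∀ n : ℕ → ℕ, (∀ i ≤ k, N ≤ n i) → ∀ A B : ℂ[X],
        IsRationalMap A B (f 0 ∘ composite f κ n k) →
          Hyperbolic (C M.1 * A + C M.2.1 * B) (C M.2.2.1 * A + C M.2.2.2 * B) := by
    have hcount : (f 0 '' (Lb (κ 0) ∪ {c | Crit (f 0) c})).Countable :=
      ((((finite_Lb (κ 0)).union (crit_finite (toIsRat (hf 0 (Nat.zero_le _)))
        (hD 0 (Nat.zero_le _)))).image _)).countable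
    filter_upwards [residual_moeb (open_dense_Ob (κ k)).2 (open_dense_Ob (κ k)).1 hcount] with M hM
    refine ⟨hM.1, ?_⟩
    obtain ⟨m, hmc, hmi, ⟨U, V, hUV, hdeg⟩, hmf⟩ := exists_moeb hM.1
    have hmh : Hol m := hol_rat hUV (by rw [hdeg]; exact one_pos)
    -- replace `f 0` by `m ∘ f 0`
    set f' : ℕ → OnePoint ℂ → OnePoint ℂ := fun i => if i = 0 then m ∘ f 0 else f i with hf'
    have hf'0 : f' 0 = m ∘ f 0 := rfl
    have hf's : ∀ i, f' (i + 1) = f (i + 1) := fun i => rfl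
    have hcp : ∀ (n : ℕ → ℕ) (j : ℕ), cp f' κ n j = cp f κ n j := by
      intro n j
      induction j with
      | zero => rfl
      | succ j ih => rw [cp, cp, ih, hf's]
    have hgood : ∀ x, (x ∈ Lb (κ 0) ∨ Crit (f' 0) x) → f' 0 x ∈ Ob (κ k) := by
      intro x hx
      have hx' : x ∈ Lb (κ 0) ∪ {c | Crit (f 0) c} := by
        rcases hx with hx | hx
        · exact Or.inl hx
        · exact Or.inr (crit_inj_comp hmi hx)
      obtain ⟨u, v, huv, he⟩ := exists_pr (f 0 x)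
      show m (f 0 x) ∈ Ob (κ k)
      rw [he, hmf u v huv]
      exact hM.2 u v huv ⟨x, hx', he⟩
    obtain ⟨N, hN⟩ := main_cp (f := f') (κ := κ) k (by
      intro i hi
      rcases Nat.eq_zero_or_pos i with rfl | hi0
      · rw [hf'0]
        exact ⟨hmc.comp (hch 0 hi).1, hmh.comp (hch 0 hi).2⟩
      · obtain ⟨i', rfl⟩ : ∃ i', i = i' + 1 := ⟨i - 1, by omega⟩
        rw [hf's]
        exact hch _ hi) (fun i hi x hx => hoff' i hi x hx) hgood
    refine ⟨N, fun n hn A B hAB => ?_⟩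
    have hsk := hN n hn
    rw [hf'0, hcp] at hsk
    rw [composite_eq] at hAB
    exact hyperbolic_moeb (F := f 0 ∘ cp f κ n k) (toIsRat hAB) hM.1 hmc hmf hsk
  refine ⟨?_, ?_, hres, ?_⟩
  · intro n hn
    have h1 : ∀ i ≤ k, Rt (f i) (max (P i).natDegree (Q i).natDegree) := fun i hi =>
      ⟨P i, Q i, toIsRat (hf i hi), rfl⟩
    have h2 := rt_cp (κ := κ) k (fun i hi _ => h1 i hi) hD hn
    have hpos : 0 < n 0 * ∏ i ∈ Finset.range k,
        (max (P (i + 1)).natDegree (Q (i + 1)).natDegree * n (i + 1)) := by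
      apply Nat.mul_pos (hn 0 (by omega))
      apply Finset.prod_pos
      intro i hi
      rw [Finset.mem_range] at hi
      exact Nat.mul_pos (hD _ (by omega)) (hn _ (by omega))
    obtain ⟨A, B, h3, h4⟩ := (h1 0 (Nat.zero_le _)).comp h2 (hD 0 (Nat.zero_le _)) hpos
    refine ⟨A, B, ?_, ?_⟩
    · rw [composite_eq]
      exact ofIsRat h3
    · rw [h4, Finset.prod_range_succ']
      ring
  · intro h0
    have h0' : ∀ x, (x ∈ Lb (κ 0) ∨ Crit (f 0) x) → f 0 x ∈ Ob (κ k) := by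
      intro x hx
      rw [mem_Ob]
      apply h0 x
      rwa [ends_eq]
    obtain ⟨N, hN⟩ := main_cp k hch hoff' h0'
    refine ⟨N, fun n hn A B hAB => ?_⟩
    rw [composite_eq] at hAB
    exact ⟨hAB.1, _, hAB.2.2.1, hAB.2.2.2, hN n hn⟩
  · intro ε hε
    have hD2 := dense_of_mem_residual hres
    rw [Metric.dense_iff] at hD2
    obtain ⟨M, hMball, hMdt, N, hMn⟩ := hD2 (1, 0, 0, 1) ε hε
    rw [Metric.mem_ball, Prod.dist_eq, Prod.dist_eq, Prod.dist_eq, max_lt_iff, max_lt_iff,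
      max_lt_iff, dist_eq_norm, dist_eq_norm, dist_eq_norm, dist_eq_norm] at hMball
    obtain ⟨m1, m2, m3, m4⟩ := hMball
    simp only [sub_zero] at m2 m3
    refine ⟨N, fun n hn A B hAB => ?_⟩
    refine ⟨_, _, degree_moeb hAB.1 hMdt, fun i => ⟨?_, ?_⟩, hMn n hn A B hAB⟩
    · have e : (C M.1 * A + C M.2.1 * B).coeff i - A.coeff i =
          (M.1 - 1) * A.coeff i + M.2.1 * B.coeff i := by
        rw [coeff_add, coeff_C_mul, coeff_C_mul]; ring
      rw [e]
      refine (norm_add_le _ _).trans ?_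
      rw [norm_mul, norm_mul, mul_add]
      exact add_le_add (mul_le_mul_of_nonneg_right m1.le (norm_nonneg _))
        (mul_le_mul_of_nonneg_right m2.le (norm_nonneg _))
    · have e : (C M.2.2.1 * A + C M.2.2.2 * B).coeff i - B.coeff i =
          M.2.2.1 * A.coeff i + (M.2.2.2 - 1) * B.coeff i := by
        rw [coeff_add, coeff_C_mul, coeff_C_mul]; ring
      rw [e]
      refine (norm_add_le _ _).trans ?_
      rw [norm_mul, norm_mul, mul_add]
      exact add_le_add (mul_le_mul_of_nonneg_right m3.le (norm_nonneg _))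
        (mul_le_mul_of_nonneg_right m4.le (norm_nonneg _))

end Pool.Agent.Results.MP_8f2e1c_an.ChebyshevFamilies
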