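import Mathlib
import Pool.Agent.X88.HI.E

/-!
# Hyperbolicity of the rational maps `f ∘ g ^ n` and `M ∘ f ∘ g ^ n` for large `n`
-/

set_option autoImplicit false

open Set Filter Topology Polynomial
open scoped OnePoint

namespace Pool.Agent.Results.MP_8f2e1c_an.HighIterates

/-- `f` is the rational map `P / Q` of the Riemann sphere, with `P / Q` in lowest terms. -/
def IsRationalMap (P Q : ℂ[X]) (f : OnePoint ℂ → OnePoint ℂ) : Prop :=
  IsCoprime P Q ∧ Q ≠ 0 ∧ Continuous f ∧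
    ∀ z : ℂ, Q.eval z ≠ 0 → f (OnePoint.some z) = OnePoint.some (P.eval z / Q.eval z)

/-- `c` is a critical point of `f`: `f` is not injective on any neighbourhood of `c`. -/
def Critical (f : OnePoint ℂ → OnePoint ℂ) (c : OnePoint ℂ) : Prop :=
  ¬ ∃ U ∈ nhds c, Set.InjOn f U

/-- `P / Q` is in lowest terms and every critical point (point of the Riemann sphere where the map
is not locally injective) has an orbit converging to an attracting periodic cycle. This is word
for word the condition of the frozen statement `S05373`. -/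
def Hyperbolic (P Q : Polynomial ℂ) : Prop :=
  IsCoprime P Q ∧ ∃ f : OnePoint ℂ → OnePoint ℂ, Continuous f ∧
    (∀ z : ℂ, Q.eval z ≠ 0 →
      f (OnePoint.some z) = OnePoint.some (P.eval z / Q.eval z)) ∧
    ∀ c : OnePoint ℂ, (¬ ∃ U ∈ nhds c, Set.InjOn f U) →
      ∃ z : OnePoint ℂ, ∃ n : ℕ, 0 < n ∧ f^[n] z = z ∧
        (∃ U ∈ nhds z, ∀ w ∈ U,
          Filter.Tendsto (fun k : ℕ => f^[n * k] w) Filter.atTop (nhds z)) ∧
        Filter.Tendsto (fun k : ℕ => f^[n * k] c) Filter.atTop (nhds z)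

/-- The iterates `g^(p k)` converge to `a` uniformly on a neighbourhood of `x`. -/
def ConvergesNear (g : OnePoint ℂ → OnePoint ℂ) (x : OnePoint ℂ) (p : ℕ) (a : OnePoint ℂ) : Prop :=
  0 < p ∧ ∃ U ∈ nhds x, ∀ V ∈ nhds a, ∀ᶠ k : ℕ in atTop, ∀ y ∈ U, g^[p * k] y ∈ V

/-- `x` lies in the basin of an attracting or a parabolic cycle of `g`: near `x` some iterates
`g^(p k)` converge uniformly to a point. -/
def InBasin (g : OnePoint ℂ → OnePoint ℂ) (x : OnePoint ℂ) : Prop :=
  ∃ (p : ℕ) (a : OnePoint ℂ), ConvergesNear g x p a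

/-- The closure of the union of the forward orbits `g^k c`, `k ≥ 1`, of the critical points `c` of
`g`, of the critical points of `f`, and of the cycles to which points of basins of `g` converge. -/
def Marked (f g : OnePoint ℂ → OnePoint ℂ) : Set (OnePoint ℂ) :=
  closure ({x | ∃ (c : OnePoint ℂ) (k : ℕ), Critical g c ∧ 1 ≤ k ∧ x = g^[k] c} ∪
    {x | Critical f x} ∪
    {x | ∃ (y : OnePoint ℂ) (p : ℕ) (a : OnePoint ℂ) (r : ℕ), ConvergesNear g y p a ∧
      x = g^[r] a})

open Pool.Agent.X88.HI Pool.Agent.Helper114.Herman Pool.Agent.Helper114.Konig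

theorem toIsRat {P Q : ℂ[X]} {f : OnePoint ℂ → OnePoint ℂ} (h : IsRationalMap P Q f) :
    IsRat f P Q := ⟨h.2.2.1, h.1, h.2.1, h.2.2.2⟩

theorem ofIsRat {P Q : ℂ[X]} {f : OnePoint ℂ → OnePoint ℂ} (h : IsRat f P Q) :
    IsRationalMap P Q f := ⟨h.cop, h.ne, h.cont, h.eval⟩

theorem inBasin_of {g : OnePoint ℂ → OnePoint ℂ} {x : OnePoint ℂ} :
    InBasin g x ↔ Settled g x := by
  constructor
  · rintro ⟨p, a, hp, U, hU, h⟩
    obtain ⟨W, hWU, hW, hx⟩ := mem_nhds_iff.1 hU
    refine ⟨p, a, W, hp, hW, hx, fun V hV => ?_⟩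
    filter_upwards [h V hV] with k hk y hy
    exact hk y (hWU hy)
  · rintro ⟨p, a, U, hp, hU, hx, h⟩
    exact ⟨p, a, hp, U, hU.mem_nhds hx, h⟩

theorem map_eq' {F : OnePoint ℂ → OnePoint ℂ} {A B : ℂ[X]} (hF : IsRat F A B) (z : ℂ) :
    F (z : OnePoint ℂ) = pr (A.eval z) (B.eval z) := by
  rcases Nat.eq_zero_or_pos (max A.natDegree B.natDegree) with h | h
  · have h1 : B.natDegree = 0 := by omega
    have h2 : B.eval z ≠ 0 := by
      have h3 := hF.ne
      rw [Polynomial.eq_C_of_natDegree_eq_zero h1] at h3 ⊢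
      simpa using h3
    rw [hF.eval z h2, pr_ne h2]
  · exact map_eq hF h z

theorem hyperbolic_moeb {F m : OnePoint ℂ → OnePoint ℂ} {A B : ℂ[X]} (hF : IsRat F A B)
    {M : ℂ × ℂ × ℂ × ℂ} (hM : dt M ≠ 0) (hm : Continuous m)
    (hmf : ∀ u v : ℂ, (u ≠ 0 ∨ v ≠ 0) →
      m (pr u v) = pr (M.1 * u + M.2.1 * v) (M.2.2.1 * u + M.2.2.2 * v))
    (hs : ∀ c, Crit (m ∘ F) c → Pool.Agent.H762R2.Rt.Sinks (m ∘ F) c) :
    Hyperbolic (C M.1 * A + C M.2.1 * B) (C M.2.2.1 * A + C M.2.2.2 * B) := by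
  refine ⟨?_, m ∘ F, hm.comp hF.cont, ?_, hs⟩
  · rw [coprime_iff]
    intro z
    simpa using dt_ne hM (coprime_iff.1 hF.cop z)
  · intro z hz
    have h1 : F (z : OnePoint ℂ) = pr (A.eval z) (B.eval z) := map_eq' hF z
    show m (F (z : OnePoint ℂ)) = _
    rw [h1, hmf _ _ (coprime_iff.1 hF.cop z)]
    have hz' : M.2.2.1 * A.eval z + M.2.2.2 * B.eval z ≠ 0 := by simpa using hz
    rw [pr_ne hz']
    simp

theorem degree_moeb {A B : ℂ[X]} (hAB : IsCoprime A B) {M : ℂ × ℂ × ℂ × ℂ} (hM : dt M ≠ 0) :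
    max (C M.1 * A + C M.2.1 * B).natDegree (C M.2.2.1 * A + C M.2.2.2 * B).natDegree =
      max A.natDegree B.natDegree := by
  have hle : ∀ a b : ℂ, (C a * A + C b * B).natDegree ≤ max A.natDegree B.natDegree := by
    intro a b
    refine (natDegree_add_le _ _).trans (max_le_max ?_ ?_)
    · exact natDegree_C_mul_le _ _
    · exact natDegree_C_mul_le _ _
  apply max_natDegree_eq (hle _ _) (hle _ _)
  simpa using dt_ne hM (coeff_max hAB)

/-- Let `f = P / Q` be a rational map of degree `D ≥ 1` and `g = A / B` a rational map of degree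
`d ≥ 1`.

(1) `f ∘ g^n` is a rational map of degree `D d ^ n`.

(2) If `f` maps all marked points into basins of attracting or parabolic cycles of `g`, then the
rational map `f ∘ g^n` is hyperbolic for all large `n`.

(3) Suppose that there are only countably many marked points and that the basins of the attracting
and the parabolic cycles of `g` are dense. Then for all matrices `M` in a residual set the
composition of `f ∘ g^n` with the Moebius transformation `M` is hyperbolic for all large `n`.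
Moreover, for every `ε > 0` and all large `n` the map `f ∘ g^n` is a limit of hyperbolic maps of the
same degree in the following sense: if `f ∘ g^n = A' / B'` in lowest terms, then there is a
hyperbolic map `P' / Q'` of the same degree with `|P'_i - A'_i|`, `|Q'_i - B'_i|` at most
`ε (|A'_i| + |B'_i|)` for all coefficients. -/
theorem result (P Q A B : ℂ[X]) (f g : OnePoint ℂ → OnePoint ℂ) (hf : IsRationalMap P Q f)
    (hg : IsRationalMap A B g) (hD : 1 ≤ max P.natDegree Q.natDegree)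
    (hd : 1 ≤ max A.natDegree B.natDegree) :
    (∀ n : ℕ, ∃ A' B' : ℂ[X], IsRationalMap A' B' (f ∘ g^[n]) ∧
      max A'.natDegree B'.natDegree =
        max P.natDegree Q.natDegree * max A.natDegree B.natDegree ^ n) ∧
    ((∀ x ∈ Marked f g, InBasin g (f x)) →
      ∀ᶠ n : ℕ in atTop, ∀ A' B' : ℂ[X], IsRationalMap A' B' (f ∘ g^[n]) → Hyperbolic A' B') ∧
    ((Marked f g).Countable → Dense {x | InBasin g x} →
      (∀ᶠ M in residual (ℂ × ℂ × ℂ × ℂ), M.1 * M.2.2.2 - M.2.1 * M.2.2.1 ≠ 0 ∧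
        ∀ᶠ n : ℕ in atTop, ∀ A' B' : ℂ[X], IsRationalMap A' B' (f ∘ g^[n]) →
          Hyperbolic (C M.1 * A' + C M.2.1 * B') (C M.2.2.1 * A' + C M.2.2.2 * B')) ∧
      ∀ ε : ℝ, 0 < ε → ∀ᶠ n : ℕ in atTop, ∀ A' B' : ℂ[X], IsRationalMap A' B' (f ∘ g^[n]) →
        ∃ P' Q' : ℂ[X], max P'.natDegree Q'.natDegree = max A'.natDegree B'.natDegree ∧
          (∀ i : ℕ, ‖P'.coeff i - A'.coeff i‖ ≤ ε * (‖A'.coeff i‖ + ‖B'.coeff i‖) ∧
            ‖Q'.coeff i - B'.coeff i‖ ≤ ε * (‖A'.coeff i‖ + ‖B'.coeff i‖)) ∧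
          Hyperbolic P' Q') := by
  have hfr := toIsRat hf
  have hgr := toIsRat hg
  have hfh : Hol f := hol_rat hfr hD
  have hgh : Hol g := hol_rat hgr hd
  have hLc : IsClosed (Marked f g) := isClosed_closure
  have h1 : ∀ c, Crit g c → ∀ k : ℕ, 1 ≤ k → g^[k] c ∈ Marked f g := fun c hc k hk =>
    subset_closure (Or.inl (Or.inl ⟨c, k, hc, hk, rfl⟩))
  have h2 : ∀ y, Crit f y → y ∈ Marked f g := fun y hy => subset_closure (Or.inl (Or.inr hy))
  have h3 : ∀ x p a U, UL g x p a U → ∀ r : ℕ, g^[r] a ∈ Marked f g := fun x p a U hU r =>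
    subset_closure (Or.inr ⟨x, p, a, r, ⟨hU.1, U, hU.2.1.mem_nhds hU.2.2.1, hU.2.2.2⟩, rfl⟩)
  refine ⟨?_, ?_, ?_⟩
  · intro n
    have hR : Rt f (max P.natDegree Q.natDegree) := ⟨P, Q, hfr, rfl⟩
    have hS : Rt g (max A.natDegree B.natDegree) := ⟨A, B, hgr, rfl⟩
    obtain ⟨A', B', h4, h5⟩ := hR.comp (hS.iter hd n) hD (pow_pos hd n)
    exact ⟨A', B', ofIsRat h4, h5⟩
  · intro hs
    filter_upwards [one hf.2.2.1 hg.2.2.1 hfh hgh hLc h1 h2 h3
      (fun x hx => inBasin_of.1 (hs x hx))] with n hn A' B' hAB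
    exact ⟨hAB.1, _, hAB.2.2.1, hAB.2.2.2, hn⟩
  · intro hcount hdense
    have hset : {x | InBasin g x} = {x | Settled g x} := by
      ext x
      exact inBasin_of
    rw [hset] at hdense
    have hres : ∀ᶠ M in residual (ℂ × ℂ × ℂ × ℂ), dt M ≠ 0 ∧
        ∀ᶠ n : ℕ in atTop, ∀ A' B' : ℂ[X], IsRationalMap A' B' (f ∘ g^[n]) →
          Hyperbolic (C M.1 * A' + C M.2.1 * B') (C M.2.2.1 * A' + C M.2.2.2 * B') := by
      filter_upwards [residual_moeb hdense (isOpen_settled g) (hcount.image f)] with M hM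
      refine ⟨hM.1, ?_⟩
      obtain ⟨m, hmc, hmi, ⟨U, V, hUV, hdeg⟩, hmf⟩ := exists_moeb hM.1
      have hmh : Hol m := hol_rat hUV (by rw [hdeg]; exact one_pos)
      have hgood : ∀ x ∈ Marked f g, Settled g ((m ∘ f) x) := by
        intro x hx
        obtain ⟨u, v, huv, he⟩ := exists_pr (f x)
        show Settled g (m (f x))
        rw [he, hmf u v huv]
        exact hM.2 u v huv ⟨x, hx, he⟩
      filter_upwards [one (hmc.comp hf.2.2.1) hg.2.2.1 (hmh.comp hfh) hgh hLc h1
        (fun y hy => h2 y (crit_inj_comp hmi hy)) h3 hgood] with n hn A' B' hAB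
      exact hyperbolic_moeb (toIsRat hAB) hM.1 hmc hmf hn
    refine ⟨hres, ?_⟩
    intro ε hε
    have hD2 := dense_of_mem_residual hres
    rw [Metric.dense_iff] at hD2
    obtain ⟨M, hMball, hMdt, hMn⟩ := hD2 (1, 0, 0, 1) ε hε
    rw [Metric.mem_ball, Prod.dist_eq, Prod.dist_eq, Prod.dist_eq, max_lt_iff, max_lt_iff,
      max_lt_iff, dist_eq_norm, dist_eq_norm, dist_eq_norm, dist_eq_norm] at hMball
    obtain ⟨m1, m2, m3, m4⟩ := hMball
    simp only [sub_zero] at m2 m3
    filter_upwards [hMn] with n hn A' B' hAB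
    refine ⟨_, _, degree_moeb hAB.1 hMdt, fun i => ⟨?_, ?_⟩, hn A' B' hAB⟩
    · have e : (C M.1 * A' + C M.2.1 * B').coeff i - A'.coeff i =
          (M.1 - 1) * A'.coeff i + M.2.1 * B'.coeff i := by
        rw [coeff_add, coeff_C_mul, coeff_C_mul]; ring
      rw [e]
      refine (norm_add_le _ _).trans ?_
      rw [norm_mul, norm_mul, mul_add]
      exact add_le_add (mul_le_mul_of_nonneg_right m1.le (norm_nonneg _))
        (mul_le_mul_of_nonneg_right m2.le (norm_nonneg _))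
    · have e : (C M.2.2.1 * A' + C M.2.2.2 * B').coeff i - B'.coeff i =
          M.2.2.1 * A'.coeff i + (M.2.2.2 - 1) * B'.coeff i := by
        rw [coeff_add, coeff_C_mul, coeff_C_mul]; ring
      rw [e]
      refine (norm_add_le _ _).trans ?_
      rw [norm_mul, norm_mul, mul_add]
      exact add_le_add (mul_le_mul_of_nonneg_right m3.le (norm_nonneg _))
        (mul_le_mul_of_nonneg_right m4.le (norm_nonneg _))

end Pool.Agent.Results.MP_8f2e1c_an.HighIterates
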