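import Mathlib
import Pool.Agent.X88.RS.C

/-!
# Hyperbolicity of the rational maps `s z ^ m R (z ^ n)` for large `n`
-/

set_option autoImplicit false

open Set Filter Topology Polynomial MeasureTheory
open scoped OnePoint

namespace Pool.Agent.Results.MP_8f2e1c_an.RotationalSymmetry

/-- `P / Q` is in lowest terms and every critical point (point of the Riemann sphere where the map
is not locally injective) has an orbit converging to an attracting periodic cycle. This is word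
for word the condition of the frozen statement `S05373`. -/
def Hyperbolic (P Q : Polynomial ℂ) : Prop :=
  IsCoprime P Q ∧ ∃ f : OnePoint ℂ → OnePoint ℂ, Continuous f ∧
    (∀ z : ℂ, Q.eval z ≠ 0 →
      f (OnePoint.some z) = OnePoint.some (P.eval z / Q.eval z)) ∧
    ∀ c : OnePoint ℂ, (¬ ∃ U ∈ nhds c, Set.InjOn f U) →
      ∃ z : OnePoint ℂ, ∃ n : ℕ, 0 < n ∧ f^[n] z = z ∧
        (∃ U ∈ nhds z, ∀ w ∈ U,
          Filter.Tendsto (fun k : ℕ => f^[n * k] w) Filter.atTop (nhds z)) ∧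
        Filter.Tendsto (fun k : ℕ => f^[n * k] c) Filter.atTop (nhds z)

/-- Let `R = P / Q` be in lowest terms, `deg P = deg Q = D ≥ 1`, `P(0) ≠ 0`, `Q(0) ≠ 0`, and
`m ≥ 3`. The map `s z^m R(z^n)` is the quotient of `s X^m P(X^n)` by `Q(X^n)`, its degree is
`m + D n`, and it commutes with a rotation of order `n` up to the `m`-th power of the rotation.

(1) For almost every real `σ` and every `s` with `|s| = exp σ` the rational map `s z^m R(z^n)` is
hyperbolic for all large `n`.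

(2) For every `ε > 0` and all large `n` there is an `s` with `|s - 1| < ε` such that
`s z^m R(z^n)`, a map of the same degree as `z^m R(z^n)`, is hyperbolic; the coefficients of its
numerator differ from those of `X^m P(X^n)` by at most `ε` times their moduli, and the denominators
are equal. -/
theorem result (P Q : ℂ[X]) (D m : ℕ) (hPQ : IsCoprime P Q) (hP : P.natDegree = D)
    (hQ : Q.natDegree = D) (hD : 1 ≤ D) (hP0 : P.eval 0 ≠ 0) (hQ0 : Q.eval 0 ≠ 0) (hm : 3 ≤ m) :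
    (∀ᵐ σ : ℝ, ∀ s : ℂ, ‖s‖ = Real.exp σ → ∀ᶠ n : ℕ in atTop,
      Hyperbolic (C s * (X ^ m * expand ℂ n P)) (expand ℂ n Q)) ∧
    ∀ ε : ℝ, 0 < ε → ∀ᶠ n : ℕ in atTop, ∃ s : ℂ, ‖s - 1‖ < ε ∧
      (C s * (X ^ m * expand ℂ n P)).natDegree = m + D * n ∧
      (X ^ m * expand ℂ n P).natDegree = m + D * n ∧
      (∀ i : ℕ, ‖(C s * (X ^ m * expand ℂ n P)).coeff i - (X ^ m * expand ℂ n P).coeff i‖ ≤
        ε * ‖(X ^ m * expand ℂ n P).coeff i‖) ∧
      Hyperbolic (C s * (X ^ m * expand ℂ n P)) (expand ℂ n Q) := by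
  have hd : ∀ s : ℂ, s ≠ 0 → Pool.Agent.X88.RS.Dat P Q D m s := fun s hs =>
    ⟨hPQ, hP, hQ, hD, by omega, hs, hP0, hQ0⟩
  have h1 : ∀ᵐ σ : ℝ, ∀ s : ℂ, ‖s‖ = Real.exp σ → ∀ᶠ n : ℕ in atTop,
      Hyperbolic (C s * (X ^ m * expand ℂ n P)) (expand ℂ n Q) := by
    filter_upwards [Pool.Agent.X88.RS.ae_main hd hm] with σ h2 s hs
    have hs0 : s ≠ 0 := by
      rintro rfl
      rw [norm_zero] at hs
      exact (Real.exp_pos σ).ne hs
    filter_upwards [h2 s hs, eventually_ge_atTop 1] with n hn hn1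
    obtain ⟨f, hf⟩ := Pool.Agent.X88.RS.exists_isF (hd s hs0) hn1
    exact ⟨hf.1.cop, f, hf.1.cont, hf.1.eval, fun c hc => hn f hf c hc⟩
  refine ⟨h1, fun ε hε => ?_⟩
  obtain ⟨δ, hδ, h2⟩ := Metric.continuousAt_iff.1 (Real.continuous_exp.continuousAt (x := 0)) ε hε
  have h3 : (volume.restrict (Ioo (0 : ℝ) δ)) ≠ 0 := by
    rw [Ne, Measure.restrict_eq_zero, Real.volume_Ioo, ENNReal.ofReal_eq_zero]
    linarith
  have h4 : (ae (volume.restrict (Ioo (0 : ℝ) δ))).NeBot := ae_neBot.2 h3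
  have h5 : ∀ᵐ σ ∂(volume.restrict (Ioo (0 : ℝ) δ)), ∀ s : ℂ, ‖s‖ = Real.exp σ →
      ∀ᶠ n : ℕ in atTop, Hyperbolic (C s * (X ^ m * expand ℂ n P)) (expand ℂ n Q) :=
    ae_restrict_of_ae h1
  have h6 : ∀ᵐ σ ∂(volume.restrict (Ioo (0 : ℝ) δ)), σ ∈ Ioo (0 : ℝ) δ :=
    ae_restrict_mem measurableSet_Ioo
  obtain ⟨σ, hσ1, hσ2⟩ := (h5.and h6).exists
  have hs : ‖((Real.exp σ : ℝ) : ℂ)‖ = Real.exp σ := by
    rw [Complex.norm_real, Real.norm_of_nonneg (Real.exp_pos σ).le]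
  have hs1 : ‖((Real.exp σ : ℝ) : ℂ) - 1‖ < ε := by
    have h4 := h2 (x := σ) (by rw [Real.dist_eq, sub_zero, abs_of_pos hσ2.1]; exact hσ2.2)
    rw [Real.exp_zero, Real.dist_eq] at h4
    rw [← Complex.ofReal_one, ← Complex.ofReal_sub, Complex.norm_real]
    exact h4
  have hs0 : ((Real.exp σ : ℝ) : ℂ) ≠ 0 := by
    rw [← norm_pos_iff, hs]
    exact Real.exp_pos σ
  filter_upwards [hσ1 _ hs, eventually_ge_atTop 1] with n hn hn1
  refine ⟨((Real.exp σ : ℝ) : ℂ), hs1, ?_, ?_, fun i => ?_, hn⟩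
  · exact Pool.Agent.X88.RS.natDegree_PP (hd _ hs0) hn1
  · have h5 := Pool.Agent.X88.RS.natDegree_PP (hd _ one_ne_zero) hn1
    unfold Pool.Agent.X88.RS.PP at h5
    rwa [C_1, one_mul] at h5
  · rw [coeff_C_mul, ← sub_one_mul, norm_mul]
    exact mul_le_mul_of_nonneg_right hs1.le (norm_nonneg _)

end Pool.Agent.Results.MP_8f2e1c_an.RotationalSymmetry
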