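import Mathlib
import Pool.Agent.X88.ZeroOne

/-!
# Which of the maps `R (z ^ n)` are hyperbolic: a zero-one law
-/

set_option autoImplicit false

open Set Filter Topology

namespace Pool.Agent.Results.MP_8f2e1c_an.ZeroOneLaw

/-- `P / Q` is in lowest terms and every critical point (point of the Riemann sphere where the map
is not locally injective) has an orbit converging to an attracting periodic cycle. This is word
for word the condition of the frozen statement `S05373`. -/
def Hyperbolic (P Q : Polynomial ℂ) : Prop :=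
  IsCoprime P Q ∧ ∃ f : OnePoint ℂ → OnePoint ℂ, Continuous f ∧
    (∀ z : ℂ, Q.eval z ≠ 0 →
      f (OnePoint.some z) = OnePoint.some (P.eval z / Q.eval z)) ∧
    ∀ c : OnePoint ℂ, (¬ ∃ U ∈ nhds c, Set.InjOn f U) →
      ∃ z : OnePoint ℂ, ∃ n : ℕ, 0 < n ∧ f^[n] z = z ∧
        (∃ U ∈ nhds z, ∀ w ∈ U,
          Filter.Tendsto (fun k : ℕ => f^[n * k] w) Filter.atTop (nhds z)) ∧
        Filter.Tendsto (fun k : ℕ => f^[n * k] c) Filter.atTop (nhds z)

/-- `v` is one of the finite points among `R 0`, `R ∞` and the critical values of `R = P / Q` at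
finite critical points which are not poles (the zeros of `P' Q - P Q'` off the zeros of `Q`); for
`n ≥ 2` all of them are critical values of `R (z ^ n)`. The value at infinity is read off from the
coefficients of order `D = max (deg P) (deg Q)`. -/
def CriticalValue (P Q : Polynomial ℂ) (v : ℂ) : Prop :=
  (Q.eval 0 ≠ 0 ∧ v = P.eval 0 / Q.eval 0) ∨
  (Q.coeff (max P.natDegree Q.natDegree) ≠ 0 ∧
    v = P.coeff (max P.natDegree Q.natDegree) / Q.coeff (max P.natDegree Q.natDegree)) ∨
  ∃ y : ℂ, (Polynomial.derivative P * Q - P * Polynomial.derivative Q).eval y = 0 ∧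
    Q.eval y ≠ 0 ∧ v = P.eval y / Q.eval y

/-- The map `y ↦ R (y ^ n)` of the plane, `R = P / Q`. -/
noncomputable def map (P Q : Polynomial ℂ) (n : ℕ) (y : ℂ) : ℂ :=
  P.eval (y ^ n) / Q.eval (y ^ n)

/-- `n` is a resonant exponent: some critical value `v` has an orbit under `y ↦ R (y ^ n)` which
consists of roots of unity and contains no critical point. -/
def Resonant (P Q : Polynomial ℂ) (n : ℕ) : Prop :=
  ∃ v : ℂ, CriticalValue P Q v ∧ ∀ j : ℕ,
    (∃ k : ℕ, 0 < k ∧ ((map P Q n)^[j] v) ^ k = 1) ∧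
    (Polynomial.derivative P * Q - P * Polynomial.derivative Q).eval
      (((map P Q n)^[j] v) ^ n) ≠ 0

/-- The zero-one law for the maps `R_n (z) = R (z ^ n)`. Let `R = P / Q` be in lowest terms, of
degree `D ≥ 1`, with `|R|` not identically one on the unit circle. There is a period `M` such that

(1) whether `n` is resonant depends only on `n` modulo `M`;

(2) for all large resonant `n` the map `R_n` is not hyperbolic;

(3) for all large `n` which are not resonant the map `R_n` is hyperbolic, with the exception of a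
sparse set of `n`: for every `L`, each window `[N, N + L)` far enough out contains at most
`2 D (4 D + 1)` exceptions;

(4) the set of the `n` for which `R_n` is hyperbolic has a density, and it is the rational number
`#{a < M : a not resonant} / M`. -/
theorem result (P Q : Polynomial ℂ) (hc : IsCoprime P Q) (D : ℕ)
    (hD : D = max P.natDegree Q.natDegree) (hD1 : 1 ≤ D)
    (hne : ∃ u : ℂ, ‖u‖ = 1 ∧ ‖P.eval u‖ ≠ ‖Q.eval u‖) :
    ∃ M : ℕ, 0 < M ∧
      (∀ n m : ℕ, n ≡ m [MOD M] → (Resonant P Q n ↔ Resonant P Q m)) ∧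
      (∃ n₀ : ℕ, ∀ n : ℕ, n₀ ≤ n → Resonant P Q n →
        ¬ Hyperbolic (Polynomial.expand ℂ n P) (Polynomial.expand ℂ n Q)) ∧
      (∀ L : ℕ, ∃ N₀ : ℕ, ∀ N : ℕ, N₀ ≤ N →
        {n : ℕ | N ≤ n ∧ n < N + L ∧ ¬ Resonant P Q n ∧
          ¬ Hyperbolic (Polynomial.expand ℂ n P) (Polynomial.expand ℂ n Q)}.ncard ≤
            2 * D * (4 * D + 1)) ∧
      Tendsto (fun N : ℕ => ({n : ℕ | n < N ∧ Hyperbolic (Polynomial.expand ℂ n P)
        (Polynomial.expand ℂ n Q)}.ncard : ℝ) / N) atTop
        (𝓝 (({a : ℕ | a < M ∧ ¬ Resonant P Q a}.ncard : ℝ) / M)) := by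
  have hstep : ∀ n : ℕ, Pool.Agent.TH864.ZO.st P Q n 1 = map P Q n := by
    intro n
    funext y
    unfold Pool.Agent.TH864.ZO.st map
    rw [one_mul]
  have hres : ∀ n : ℕ, Pool.Agent.TH864.ZO.Res P Q D n ↔ Resonant P Q n := by
    intro n
    unfold Pool.Agent.TH864.ZO.Res Resonant
    rw [hstep]
    subst hD
    exact Iff.rfl
  obtain ⟨M, hM, h1, h2, h3, h4⟩ := Pool.Agent.X88.ZeroOne.zero_one' hc hD hD1 hne
  simp only [hres] at h1 h2 h3 h4
  refine ⟨M, hM, h1, h2, fun L => ?_, h4⟩
  obtain ⟨N₀, h⟩ := h3 L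
  refine ⟨N₀, fun N hN => (h N hN).trans (le_of_eq ?_)⟩
  ring

end Pool.Agent.Results.MP_8f2e1c_an.ZeroOneLaw
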